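import Pool.Agent.M3D.Final

set_option autoImplicit false

namespace Pool.Agent.Results.MP_c12988_an.ComplexityGap

open Matrix

/-- The union of the cosets `a g SL_3(ℤ)` over the diagonal matrices `a` of determinant `1`. -/
def orbitSet (g : Matrix (Fin 3) (Fin 3) ℝ) : Set (Matrix (Fin 3) (Fin 3) ℝ) :=
  {M | ∃ d : Fin 3 → ℝ, (Matrix.diagonal d).det = 1 ∧
    ∃ γ : Matrix (Fin 3) (Fin 3) ℤ, γ.det = 1 ∧
      M = Matrix.diagonal d * g * γ.map (fun z : ℤ => (z : ℝ))}

/-- The `l`-th column of `M⁻¹` if `col` is true, the `l`-th row of `M` if `col` is false. -/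
noncomputable def phi (col : Bool) (l : Fin 3) (M : Matrix (Fin 3) (Fin 3) ℝ) : Fin 3 → ℝ :=
  if col then fun j => M⁻¹ j l else M l

/-- A `B`-chain `a 0, …, a N` of length at least `L` in the diagonal group: entries of consecutive
members differ by factors at most `B`, and some entry of `a 0` and `a N` differs by a factor at
least `L`. -/
def Chain (B L : ℝ) (N : ℕ) (a : ℕ → Fin 3 → ℝ) : Prop :=
  (∀ n, (Matrix.diagonal (a n)).det = 1) ∧
  (∀ n < N, ∀ i, |a (n + 1) i| ≤ B * |a n i| ∧ |a n i| ≤ B * |a (n + 1) i|) ∧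
  ∃ i, L * |a 0 i| ≤ |a N i| ∨ L * |a N i| ≤ |a 0 i|

/-- At most `m` lines suffice at `a` at scale `r`: for every diagonal `s` of determinant `1` with
`r ≤ |s_i| ≤ 1/r` some `γ ∈ SL_3(ℤ)` has `s a g γ ∈ K` and `phi (s a g γ)` within `r` of one of the
lines. -/
def FewLines (col : Bool) (l : Fin 3) (g : Matrix (Fin 3) (Fin 3) ℝ)
    (K : Set (Matrix (Fin 3) (Fin 3) ℝ)) (a : Fin 3 → ℝ) (r m : ℝ) : Prop :=
  ∃ V : Finset (Fin 3 → ℝ), (V.card : ℝ) ≤ m ∧
    ∀ s : Fin 3 → ℝ, (Matrix.diagonal s).det = 1 → (∀ i, r ≤ |s i| ∧ |s i| ≤ 1 / r) →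
      ∃ γ : Matrix (Fin 3) (Fin 3) ℤ, γ.det = 1 ∧
        Matrix.diagonal s * (Matrix.diagonal a * g) * γ.map (fun z : ℤ => (z : ℝ)) ∈ K ∧
        ∃ v ∈ V, ∃ t : ℝ, ∀ j,
          |phi col l (Matrix.diagonal s * (Matrix.diagonal a * g) *
            γ.map (fun z : ℤ => (z : ℝ))) j - t * v j| ≤ r

/-- The lattice `y ℤ³` has an approximate multiplication: a non-scalar integer matrix `X` such that
`P = y X y⁻¹` has entries at most `T` and off-diagonal entries in the `l`-th row (column if `col`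
is true) at most `ε` in absolute value. -/
def ApproxMult (col : Bool) (l : Fin 3) (y : Matrix (Fin 3) (Fin 3) ℝ) (T ε : ℝ) : Prop :=
  ∃ (X : Matrix (Fin 3) (Fin 3) ℤ) (P : Matrix (Fin 3) (Fin 3) ℝ),
    (∀ m : ℤ, X ≠ Matrix.diagonal (fun _ => m)) ∧
    y * X.map (fun z : ℤ => (z : ℝ)) = P * y ∧
    (∀ i j, |P i j| ≤ T) ∧ ∀ j, j ≠ l → |if col then P j l else P l j| ≤ ε

/-- Let `K` be a compact set of matrices meeting every coset `a g SL_3(ℤ)`, `a` diagonal of
determinant `1`.  Equivalent: the orbit is closed; the directions of `phi` on `K` and the orbit are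
finite in number; for arbitrarily small scales `r` there are arbitrarily long chains at each point
of which at most `c log² r` lines suffice; there are approximate multiplications with `ε T ^ 5`
arbitrarily small at all points of arbitrarily long chains. -/
theorem result (g : Matrix (Fin 3) (Fin 3) ℝ) (hg : g.det = 1)
    (K : Set (Matrix (Fin 3) (Fin 3) ℝ)) (hK : IsCompact K)
    (hmeet : ∀ d : Fin 3 → ℝ, (Matrix.diagonal d).det = 1 →
      ∃ γ : Matrix (Fin 3) (Fin 3) ℤ, γ.det = 1 ∧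
        Matrix.diagonal d * g * γ.map (fun z : ℤ => (z : ℝ)) ∈ K)
    (col : Bool) (l : Fin 3) :
    List.TFAE [
      IsClosed (orbitSet g),
      ∃ V : Finset (Fin 3 → ℝ), ∀ M ∈ K, M ∈ orbitSet g → ∃ v ∈ V, ∃ t : ℝ, ∀ j,
        phi col l M j = t * v j,
      ∃ B : ℝ, 1 ≤ B ∧ ∀ c r₀ : ℝ, 0 < c → 0 < r₀ → ∃ r, 0 < r ∧ r < r₀ ∧
        ∀ L : ℝ, ∃ (N : ℕ) (a : ℕ → Fin 3 → ℝ), Chain B L N a ∧
          ∀ n ≤ N, FewLines col l g K (a n) r (c * Real.log r ^ 2),
      ∃ B : ℝ, 1 ≤ B ∧ ∀ c : ℝ, 0 < c → ∃ T ε : ℝ, 1 ≤ T ∧ 0 < ε ∧ ε * T ^ 5 ≤ c ∧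
        ∀ L : ℝ, ∃ (N : ℕ) (a : ℕ → Fin 3 → ℝ), Chain B L N a ∧
          ∀ n ≤ N, ApproxMult col l (Matrix.diagonal (a n) * g) T ε] := by
  have hb : M3C.BoundedOrbit g := ⟨K, hK, hmeet⟩
  have hchain : ∀ L : ℝ, ∃ (N : ℕ) (a : ℕ → Fin 3 → ℝ), Chain 2 L N a := by
    intro L
    obtain ⟨N, hN⟩ := pow_unbounded_of_one_lt L (by norm_num : (1 : ℝ) < 2)
    refine ⟨N, fun n => ![2 ^ n, 1, (2 ^ n)⁻¹], ?_, ?_, 0, Or.inl ?_⟩
    · intro n
      rw [Margulis3.det_diagonal3]
      simp
    · intro n _ i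
      have h2 : (0 : ℝ) < 2 ^ n := by positivity
      fin_cases i
      · simp [pow_succ]
        constructor <;> nlinarith
      · simp
      · simp [pow_succ]
        norm_num
    · simp
      exact hN.le
  tfae_have 1 → 2 := by
    intro hcl
    exact M3D.finite_lines hg hK hb hcl col l
  tfae_have 2 → 3 := by
    rintro ⟨V, hV⟩
    refine ⟨2, by norm_num, fun c r₀ hc hr₀ => ?_⟩
    -- choose r small enough for the cardinality
    obtain ⟨x, hx⟩ : ∃ x : ℝ, 1 ≤ x ∧ (V.card : ℝ) ≤ c * x ^ 2 ∧ Real.exp (-x) < r₀ := by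
      refine ⟨max (max 1 (V.card / c)) (1 - Real.log r₀), ?_, ?_, ?_⟩
      · exact (le_max_left _ _).trans (le_max_left _ _)
      · set x := max (max 1 ((V.card : ℝ) / c)) (1 - Real.log r₀)
        have h1 : 1 ≤ x := (le_max_left _ _).trans (le_max_left _ _)
        have h2 : (V.card : ℝ) / c ≤ x := (le_max_right _ _).trans (le_max_left _ _)
        rw [div_le_iff₀ hc] at h2
        nlinarith [mul_nonneg hc.le (by linarith : (0 : ℝ) ≤ x)]
      · set x := max (max 1 ((V.card : ℝ) / c)) (1 - Real.log r₀)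
        have h3 : 1 - Real.log r₀ ≤ x := le_max_right _ _
        calc Real.exp (-x) < Real.exp (Real.log r₀) := Real.exp_lt_exp.mpr (by linarith)
          _ = r₀ := Real.exp_log hr₀
    refine ⟨Real.exp (-x), Real.exp_pos _, hx.2.2, fun L => ?_⟩
    obtain ⟨N, a, ha⟩ := hchain L
    refine ⟨N, a, ha, fun n _ => ⟨V, ?_, fun s hs _ => ?_⟩⟩
    · rw [Real.log_exp]
      calc (V.card : ℝ) ≤ c * x ^ 2 := hx.2.1
        _ = c * (-x) ^ 2 := by ring
    · have hsa : (Matrix.diagonal (fun i => s i * a n i)).det = 1 :=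
        M3C.diag_mul_det hs (ha.1 n)
      obtain ⟨γ, hγ, hγK⟩ := hmeet _ hsa
      have e : Matrix.diagonal s * (Matrix.diagonal (a n) * g) * γ.map (fun z : ℤ => (z : ℝ))
          = Matrix.diagonal (fun i => s i * a n i) * g * γ.map (fun z : ℤ => (z : ℝ)) := by
        rw [← mul_assoc (Matrix.diagonal s), diagonal_mul_diagonal]
      refine ⟨γ, hγ, by rw [e]; exact hγK, ?_⟩
      obtain ⟨v, hv, t, ht⟩ := hV _ hγK ⟨_, hsa, γ, hγ, rfl⟩
      refine ⟨v, hv, t, fun j => ?_⟩
      rw [e, ht j, sub_self, abs_zero]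
      exact (Real.exp_pos _).le
  tfae_have 3 → 1 := by
    rintro ⟨B, hB, h⟩
    obtain ⟨c, r₀, hc, hr₀, hmain⟩ := M3D.closed_of_cov hg hK hmeet col l hB
    obtain ⟨r, hr, hrr₀, hcov⟩ := h c r₀ hc hr₀
    exact hmain r hr hrr₀ hcov
  tfae_have 1 → 4 := by
    intro hcl
    have hS := M3C.closure_bd hg hb
    have hcl' : IsClosed (M3C.orbitSet g) := hcl
    rw [hcl'.closure_eq] at hS
    obtain ⟨γ, c, hcinj, hγ⟩ := M3C.exists_auto hS (M3C.loc_of_closed hS)
    refine ⟨2, by norm_num, fun c' hc' => ?_⟩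
    set T : ℝ := 1 + ∑ i, |c i| with hT
    have hT1 : 1 ≤ T := by
      have : 0 ≤ ∑ i, |c i| := Finset.sum_nonneg fun _ _ => abs_nonneg _
      linarith
    refine ⟨T, c' / T ^ 5, hT1, by positivity, by rw [div_mul_cancel₀ _ (by positivity)],
      fun L => ?_⟩
    obtain ⟨N, a, ha⟩ := hchain L
    refine ⟨N, a, ha, fun n _ => ⟨γ, Matrix.diagonal c, ?_, ?_, ?_, ?_⟩⟩
    · intro m hm
      have h1 : ∀ i, c i = m := by
        intro i
        have h2 : Matrix.diagonal c = Matrix.diagonal (fun _ => (m : ℝ)) := by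
          have h3 : M3C.ir γ = Matrix.diagonal (fun _ => (m : ℝ)) := by
            rw [hm]; exact M3D.ir_diag m
          rw [h3] at hγ
          have h4 : g * Matrix.diagonal (fun _ => (m : ℝ)) = Matrix.diagonal (fun _ => (m : ℝ)) * g := by
            ext i j
            rw [mul_diagonal, diagonal_mul, mul_comm]
          rw [h4] at hγ
          have h5 := congrArg (fun M => M * g⁻¹) hγ
          simp only [mul_assoc, M3C.mul_inv_one hg, mul_one] at h5
          exact h5.symm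
        have := congrFun (congrFun h2 i) i
        rwa [diagonal_apply_eq, diagonal_apply_eq] at this
      have : c 0 = c 1 := by rw [h1, h1]
      exact absurd (hcinj this) (by decide)
    · change Matrix.diagonal (a n) * g * M3C.ir γ = _
      rw [mul_assoc, hγ, ← mul_assoc, ← mul_assoc, diagonal_mul_diagonal, diagonal_mul_diagonal]
      congr 2
      funext i
      rw [mul_comm]
    · intro i j
      by_cases hij : i = j
      · subst hij
        rw [diagonal_apply_eq]
        have := Finset.single_le_sum (f := fun i => |c i|) (fun _ _ => abs_nonneg _)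
          (Finset.mem_univ i)
        linarith
      · rw [diagonal_apply_ne _ hij, abs_zero]
        linarith
    · intro j hj
      have h0 : (if col = true then Matrix.diagonal c j l else Matrix.diagonal c l j) = 0 := by
        split_ifs
        · exact diagonal_apply_ne _ hj
        · exact diagonal_apply_ne _ (Ne.symm hj)
      rw [h0, abs_zero]
      positivity
  tfae_have 4 → 1 := by
    rintro ⟨B, hB, h⟩
    obtain ⟨c₀, hc₀, hcrit⟩ := M3D.criterion hg hb l col
    obtain ⟨T, ε, hT, hε, hεT, hX⟩ := h (c₀ / B ^ 12) (by positivity)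
    refine hcrit B T ε hB hT ?_ hX
    rw [le_div_iff₀ (by positivity)] at hεT
    linarith
  tfae_finish

end Pool.Agent.Results.MP_c12988_an.ComplexityGap
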