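import Pool.Agent.M3C.Final

set_option autoImplicit false

namespace Pool.Agent.Results.MP_c12988_an.CountableValues

open Matrix

/-- The coset `g SL_3(ℤ)` has bounded orbit under the diagonal group: some compact set of
matrices meets `a g SL_3(ℤ)` for every real diagonal matrix `a` of determinant `1`. -/
def BoundedOrbit (g : Matrix (Fin 3) (Fin 3) ℝ) : Prop :=
  ∃ K : Set (Matrix (Fin 3) (Fin 3) ℝ), IsCompact K ∧
    ∀ d : Fin 3 → ℝ, (Matrix.diagonal d).det = 1 →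
      ∃ γ : Matrix (Fin 3) (Fin 3) ℤ, γ.det = 1 ∧
        Matrix.diagonal d * g * γ.map (fun z : ℤ => (z : ℝ)) ∈ K

/-- The union of the cosets `a g SL_3(ℤ)` over the diagonal matrices `a` of determinant `1`. -/
def orbitSet (g : Matrix (Fin 3) (Fin 3) ℝ) : Set (Matrix (Fin 3) (Fin 3) ℝ) :=
  {M | ∃ d : Fin 3 → ℝ, (Matrix.diagonal d).det = 1 ∧
    ∃ γ : Matrix (Fin 3) (Fin 3) ℤ, γ.det = 1 ∧
      M = Matrix.diagonal d * g * γ.map (fun z : ℤ => (z : ℝ))}

/-- The product `N_g(v)` of the three coordinates of `g v`. -/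
def N (g : Matrix (Fin 3) (Fin 3) ℝ) (v : Fin 3 → ℤ) : ℝ :=
  ∏ i, (g *ᵥ (fun j => (v j : ℝ))) i

/-- Let `g ∈ SL_3(ℝ)` have bounded orbit under the diagonal group.  The orbit is closed if and
only if any of the following holds: for each `c` only finitely many values of `N_g` at nonzero
integer vectors lie in `[-c, c]`; the values in `[-1/4, 1/4]` have countable closure; for some
`h` in the closure of the orbit, every `a h ℤ³` has a nonzero vector in one fixed cube whose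
product of coordinates lies in one fixed countable closed set; some uniformly recurrent `h` in
the closure of the orbit has an isolated value. -/
theorem result (g : Matrix (Fin 3) (Fin 3) ℝ) (hg : g.det = 1) (hb : BoundedOrbit g) :
    List.TFAE [
      IsClosed (orbitSet g),
      ∀ c : ℝ, {t : ℝ | ∃ v : Fin 3 → ℤ, v ≠ 0 ∧ N g v = t ∧ |t| ≤ c}.Finite,
      (closure {t : ℝ | ∃ v : Fin 3 → ℤ, v ≠ 0 ∧ N g v = t ∧ |t| ≤ 1 / 4}).Countable,
      ∃ h ∈ closure (orbitSet g), ∃ R : ℝ, ∃ D : Set ℝ, IsClosed D ∧ D.Countable ∧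
        ∀ d : Fin 3 → ℝ, (Matrix.diagonal d).det = 1 → ∃ v : Fin 3 → ℤ, v ≠ 0 ∧
          (∀ i, |d i * (h *ᵥ (fun j => (v j : ℝ))) i| ≤ R) ∧ N h v ∈ D,
      ∃ h ∈ closure (orbitSet g), (∀ h' ∈ closure (orbitSet h), h ∈ closure (orbitSet h')) ∧
        ∃ v₀ : Fin 3 → ℤ, v₀ ≠ 0 ∧ ∃ ε : ℝ, 0 < ε ∧
          ∀ v : Fin 3 → ℤ, v ≠ 0 → |N h v - N h v₀| < ε → N h v = N h v₀] := by
  have h1 := M3C.criteria hg hb
  have h2 : ∀ (h : Matrix (Fin 3) (Fin 3) ℝ) (d : Fin 3 → ℝ) (v : Fin 3 → ℤ) (i : Fin 3),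
      ((Matrix.diagonal d * h) *ᵥ M3C.cv v) i = d i * (h *ᵥ (fun j => (v j : ℝ))) i :=
    fun h d v i => M3C.diag_mulVec d h _ i
  simp only [h2] at h1
  exact h1

end Pool.Agent.Results.MP_c12988_an.CountableValues
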