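import Pool.Agent.Margulis3.Main

set_option autoImplicit false

namespace Pool.Agent.Results.MP_c12988_an.CubicForm

open Matrix Margulis3 Module

/-- The coset `g SL_3(ℤ)` has bounded orbit under the diagonal group: some compact set of
matrices meets `a g SL_3(ℤ)` for every real diagonal matrix `a` of determinant `1`. -/
def BoundedOrbit (g : Matrix (Fin 3) (Fin 3) ℝ) : Prop :=
  ∃ K : Set (Matrix (Fin 3) (Fin 3) ℝ), IsCompact K ∧
    ∀ d : Fin 3 → ℝ, (Matrix.diagonal d).det = 1 →
      ∃ γ : Matrix (Fin 3) (Fin 3) ℤ, γ.det = 1 ∧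
        Matrix.diagonal d * g * γ.map (fun z : ℤ => (z : ℝ)) ∈ K

/-- The union of the cosets `a g SL_3(ℤ)` over the diagonal matrices `a` of determinant `1`. -/
def orbitSet (g : Matrix (Fin 3) (Fin 3) ℝ) : Set (Matrix (Fin 3) (Fin 3) ℝ) :=
  {M | ∃ d : Fin 3 → ℝ, (Matrix.diagonal d).det = 1 ∧
    ∃ γ : Matrix (Fin 3) (Fin 3) ℤ, γ.det = 1 ∧
      M = Matrix.diagonal d * g * γ.map (fun z : ℤ => (z : ℝ))}

/-- A vector is cubic if it is a real multiple of a vector whose three coordinates lie in one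
real number field of degree three. -/
def CubicVector (x : Fin 3 → ℝ) : Prop :=
  ∃ K : IntermediateField ℚ ℝ, finrank ℚ K = 3 ∧
    ∃ (c : ℝ) (k : Fin 3 → K), ∀ j, x j = c * (k j : ℝ)

lemma row_case (g : Matrix (Fin 3) (Fin 3) ℝ) (hg : g.det = 1) (hb : BoundedOrbit g)
    (i : Fin 3) (hi : CubicVector (g i)) : IsClosed (orbitSet g) := by
  obtain ⟨K, hK, c, k, hk⟩ := hi
  have : FiniteDimensional ℚ K := FiniteDimensional.of_finrank_pos (by rw [hK]; norm_num)
  have : NumberField K := { to_charZero := inferInstance, to_finiteDimensional := inferInstance }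
  obtain ⟨δ, hδ, hlow⟩ := lower_bound g hb hg
  set π : Equiv.Perm (Fin 3) := Equiv.swap 0 i with hπ
  set g' : Matrix (Fin 3) (Fin 3) ℝ := g.submatrix π id with hg'
  have hprod : ∀ x, prodForm g' x = prodForm g x := by
    intro x
    unfold prodForm
    exact Fintype.prod_equiv π _ _ fun m => rfl
  have hdet : g'.det ≠ 0 := by
    rw [hg', Matrix.det_permute, hg, mul_one]
    intro h
    rcases Int.units_eq_one_or (Equiv.Perm.sign π) with h1 | h1 <;> rw [h1] at h <;> simp at h
  have h0 : ∀ j, g' 0 j = c * (algebraMap K ℝ) (k j) := by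
    intro j
    have : π 0 = i := Equiv.swap_apply_left 0 i
    rw [hg', Matrix.submatrix_apply, this]
    exact hk j
  obtain ⟨κ, hκ, hm⟩ := main_lemma hK (algebraMap K ℝ) k c g' h0 hdet δ hδ
    (fun v hv => by rw [hprod]; exact hlow v hv)
  exact closed_of_discrete g hg κ hκ (fun v => by
    obtain ⟨m, hm⟩ := hm v
    exact ⟨m, by rw [← hprod]; exact hm⟩)

/-- transpose of the adjugate -/
noncomputable def star3 (M : Matrix (Fin 3) (Fin 3) ℝ) : Matrix (Fin 3) (Fin 3) ℝ :=
  M.adjugateᵀ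

lemma star3_mul (M N : Matrix (Fin 3) (Fin 3) ℝ) : star3 (M * N) = star3 M * star3 N := by
  unfold star3
  rw [adjugate_mul_distrib, transpose_mul]

lemma star3_star3 (M : Matrix (Fin 3) (Fin 3) ℝ) (h : M.det = 1) : star3 (star3 M) = M := by
  unfold star3
  rw [adjugate_transpose, transpose_transpose, adjugate_adjugate _ (by simp), h]
  simp

lemma star3_det (M : Matrix (Fin 3) (Fin 3) ℝ) (h : M.det = 1) : (star3 M).det = 1 := by
  unfold star3
  rw [det_transpose, det_adjugate, h, one_pow]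

lemma star3_diag (d : Fin 3 → ℝ) :
    star3 (Matrix.diagonal d) = Matrix.diagonal ![d 1 * d 2, d 0 * d 2, d 0 * d 1] := by
  unfold star3
  ext i j
  rw [transpose_apply, adjugate_fin_three]
  fin_cases i <;> fin_cases j <;> simp [Matrix.diagonal]

lemma star3_int (γ : Matrix (Fin 3) (Fin 3) ℤ) :
    star3 (γ.map (fun z : ℤ => (z : ℝ))) = (γ.adjugateᵀ).map (fun z : ℤ => (z : ℝ)) := by
  unfold star3
  have h := RingHom.map_adjugate (Int.castRingHom ℝ) γ
  rw [RingHom.mapMatrix_apply, RingHom.mapMatrix_apply] at h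
  have e : (γ.map (fun z : ℤ => (z : ℝ))) = γ.map (Int.castRingHom ℝ) := rfl
  rw [e, ← h, transpose_map]
  rfl

lemma star3_cont : Continuous star3 := by
  unfold star3
  exact (continuous_id.matrix_adjugate).matrix_transpose

lemma det_map_one (γ : Matrix (Fin 3) (Fin 3) ℤ) (h : γ.det = 1) :
    (γ.map (fun z : ℤ => (z : ℝ))).det = 1 := by
  have : (γ.map (Int.castRingHom ℝ)).det = ((γ.det : ℤ) : ℝ) := by
    rw [← RingHom.mapMatrix_apply, ← RingHom.map_det]; rfl
  rw [h] at this
  simpa using this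

lemma star_diag_det (d : Fin 3 → ℝ) (hd : (Matrix.diagonal d).det = 1) :
    (Matrix.diagonal ![d 1 * d 2, d 0 * d 2, d 0 * d 1]).det = 1 := by
  rw [det_diagonal3] at hd ⊢
  simp only [Matrix.cons_val_zero, Matrix.cons_val_one, Matrix.cons_val]
  have : d 1 * d 2 * (d 0 * d 2) * (d 0 * d 1) = (d 0 * d 1 * d 2) ^ 2 := by ring
  rw [this, hd, one_pow]

lemma star_diag_diag (d : Fin 3 → ℝ) (hd : (Matrix.diagonal d).det = 1) :
    star3 (Matrix.diagonal ![d 1 * d 2, d 0 * d 2, d 0 * d 1]) = Matrix.diagonal d := by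
  rw [← star3_diag]
  exact star3_star3 _ hd

lemma adjT_det (γ : Matrix (Fin 3) (Fin 3) ℤ) (h : γ.det = 1) : (γ.adjugateᵀ).det = 1 := by
  rw [det_transpose, det_adjugate, h, one_pow]

lemma bounded_star (g : Matrix (Fin 3) (Fin 3) ℝ) (hb : BoundedOrbit g) :
    BoundedOrbit (star3 g) := by
  obtain ⟨K, hK, h⟩ := hb
  refine ⟨star3 '' K, hK.image star3_cont, fun d hd => ?_⟩
  obtain ⟨γ, hγ, hM⟩ := h ![d 1 * d 2, d 0 * d 2, d 0 * d 1] (star_diag_det d hd)
  refine ⟨γ.adjugateᵀ, adjT_det γ hγ, ⟨_, hM, ?_⟩⟩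
  rw [star3_mul, star3_mul, star_diag_diag d hd, star3_int]

lemma closed_star (g : Matrix (Fin 3) (Fin 3) ℝ) (hg : g.det = 1)
    (h : IsClosed (orbitSet (star3 g))) : IsClosed (orbitSet g) := by
  have hdetc : IsClosed {M : Matrix (Fin 3) (Fin 3) ℝ | M.det = 1} :=
    isClosed_eq continuous_id.matrix_det continuous_const
  have heq : orbitSet g = {M : Matrix (Fin 3) (Fin 3) ℝ | M.det = 1} ∩
      (star3 ⁻¹' (orbitSet (star3 g))) := by
    ext M
    constructor
    · rintro ⟨d, hd, γ, hγ, rfl⟩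
      refine ⟨?_, ?_⟩
      · change (_ : ℝ) = 1
        rw [det_mul, det_mul, hd, hg, det_map_one γ hγ]; norm_num
      · refine ⟨![d 1 * d 2, d 0 * d 2, d 0 * d 1], star_diag_det d hd, γ.adjugateᵀ,
          adjT_det γ hγ, ?_⟩
        rw [star3_mul, star3_mul, star3_diag, star3_int]
    · rintro ⟨hM, d, hd, γ, hγ, hMeq⟩
      refine ⟨![d 1 * d 2, d 0 * d 2, d 0 * d 1], star_diag_det d hd, γ.adjugateᵀ,
          adjT_det γ hγ, ?_⟩
      rw [← star3_star3 M hM, hMeq, star3_mul, star3_mul, star3_diag, star3_int,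
        star3_star3 g hg]
  rw [heq]
  exact hdetc.inter (h.preimage star3_cont)

/-- Let `g ∈ SL_3(ℝ)` have bounded orbit under the diagonal group.  If for some `i` the `i`-th
row of `g` (the `i`-th coordinate form on the lattice) or the `i`-th column of `g⁻¹` (the
direction of the `i`-th coordinate axis with respect to the lattice) is a real multiple of a
vector with coordinates in a cubic number field, then the orbit is closed. -/
theorem result (g : Matrix (Fin 3) (Fin 3) ℝ) (hg : g.det = 1) (hb : BoundedOrbit g)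
    (hcubic : ∃ i : Fin 3, CubicVector (fun j => g i j) ∨ CubicVector (fun j => g⁻¹ j i)) :
    IsClosed (orbitSet g) := by
  obtain ⟨i, hi | hi⟩ := hcubic
  · exact row_case g hg hb i hi
  · refine closed_star g hg (row_case (star3 g) (star3_det g hg) (bounded_star g hb) i ?_)
    have h1 : (star3 g) i = fun j => g⁻¹ j i := by
      funext j
      have h2 : g⁻¹ = g.adjugate := by
        rw [Matrix.inv_def, hg]; simp
      rw [h2]
      rfl
    rw [h1]
    exact hi

end Pool.Agent.Results.MP_c12988_an.CubicForm
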