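import Pool.Agent.M3E.Final

set_option autoImplicit false

namespace Pool.Agent.Results.MP_c12988_an.SubsystemRigidity

open Matrix

/-- The set of all `a g γ`, `a` real diagonal of determinant `1`, `γ ∈ SL_3(ℤ)`. -/
def orbitSet (g : Matrix (Fin 3) (Fin 3) ℝ) : Set (Matrix (Fin 3) (Fin 3) ℝ) :=
  {M | ∃ d : Fin 3 → ℝ, (Matrix.diagonal d).det = 1 ∧
    ∃ γ : Matrix (Fin 3) (Fin 3) ℤ, γ.det = 1 ∧
      M = Matrix.diagonal d * g * γ.map (fun z : ℤ => (z : ℝ))}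

/-- The orbit of `g` is bounded: some compact set of matrices meets `a g SL_3(ℤ)` for every
diagonal `a` of determinant `1`. -/
def BoundedOrbit (g : Matrix (Fin 3) (Fin 3) ℝ) : Prop :=
  ∃ K : Set (Matrix (Fin 3) (Fin 3) ℝ), IsCompact K ∧
    ∀ d : Fin 3 → ℝ, (Matrix.diagonal d).det = 1 →
      ∃ γ : Matrix (Fin 3) (Fin 3) ℤ, γ.det = 1 ∧
        Matrix.diagonal d * g * γ.map (fun z : ℤ => (z : ℝ)) ∈ K

/-- The set of all `a h γ`, `γ ∈ SL_3(ℤ)` and `a` in the singular group of the diagonal matrices of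
determinant `1` with `|a_i| = |a_j|`. -/
def singOrbit (i j : Fin 3) (h : Matrix (Fin 3) (Fin 3) ℝ) : Set (Matrix (Fin 3) (Fin 3) ℝ) :=
  {M | ∃ a : Fin 3 → ℝ, (Matrix.diagonal a).det = 1 ∧ |a i| = |a j| ∧
    ∃ γ : Matrix (Fin 3) (Fin 3) ℤ, γ.det = 1 ∧
      M = Matrix.diagonal a * h * γ.map (fun z : ℤ => (z : ℝ))}

/-- `Z` is a nonempty closed subset of `Y` with `b Z ⊆ Z` and `Z SL_3(ℤ) ⊆ Z`. -/
def BSet (b : Fin 3 → ℝ) (Y Z : Set (Matrix (Fin 3) (Fin 3) ℝ)) : Prop :=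
  IsClosed Z ∧ Z.Nonempty ∧ Z ⊆ Y ∧ (∀ M ∈ Z, Matrix.diagonal b * M ∈ Z) ∧
    ∀ M ∈ Z, ∀ γ : Matrix (Fin 3) (Fin 3) ℤ, γ.det = 1 →
      M * γ.map (fun z : ℤ => (z : ℝ)) ∈ Z

/-- The diagonal matrix of `b` has determinant `1` and generates an unbounded group. -/
def Noncpt (b : Fin 3 → ℝ) : Prop := (Matrix.diagonal b).det = 1 ∧ ∃ q, |b q| ≠ 1

/-- There are no `h, u h ∈ Z` with `u ≠ 1` and `b ^ (-n) u b ^ n → 1` for `n → ∞`. -/
def NoAsym (b : Fin 3 → ℝ) (Z : Set (Matrix (Fin 3) (Fin 3) ℝ)) : Prop :=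
  ∀ h u : Matrix (Fin 3) (Fin 3) ℝ, h ∈ Z → u * h ∈ Z →
    Filter.Tendsto (fun n : ℕ => Matrix.diagonal (fun q => (b q ^ n)⁻¹) * u *
      Matrix.diagonal (fun q => b q ^ n)) Filter.atTop (nhds 1) → u = 1

/-- There are countably many lines through `0` such that every element of `S` has a row, or a
column of its inverse, on one of them. -/
def CLines (S : Set (Matrix (Fin 3) (Fin 3) ℝ)) : Prop :=
  ∃ D : Set (Fin 3 → ℝ), D.Countable ∧ ∀ M ∈ S, ∃ d ∈ D, ∃ (l : Fin 3) (c : ℝ),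
    M l = c • d ∨ (fun q => M⁻¹ q l) = c • d

/-- Closed orbits are characterized by the action of one noncompact element on one closed
invariant subset of the orbit closure, by the pairs on one root leaf, and by one singular
subgroup. -/
theorem result (g : Matrix (Fin 3) (Fin 3) ℝ) (hg : g.det = 1) (hb : BoundedOrbit g) :
    List.TFAE [
      IsClosed (orbitSet g),
      ∀ b : Fin 3 → ℝ, (Matrix.diagonal b).det = 1 → NoAsym b (closure (orbitSet g)),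
      ∃ b Z, Noncpt b ∧ BSet b (closure (orbitSet g)) Z ∧ NoAsym b Z,
      ∃ b Z, Noncpt b ∧ BSet b (closure (orbitSet g)) Z ∧ CLines Z,
      ∃ i j : Fin 3, i ≠ j ∧ ∃ h₀ ∈ closure (orbitSet g), CLines {h | h ∈ closure (orbitSet h₀) ∧
        ∃ t : ℝ, t ≠ 0 ∧ transvection i j t * h ∈ closure (orbitSet h₀)},
      ∀ i j : Fin 3, i ≠ j → ∀ h ∈ closure (orbitSet g),
        closure (singOrbit i j h) = closure (orbitSet g),
      ∃ i j : Fin 3, i ≠ j ∧ ∃ h₀ ∈ closure (orbitSet g), ∀ h ∈ closure (orbitSet h₀),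
        ∃ h' : Matrix (Fin 3) (Fin 3) ℝ, ∃ U ∈ nhds (1 : Fin 3 → ℝ), ∀ a ∈ U,
          (Matrix.diagonal a).det = 1 →
            Matrix.diagonal a * h' ∈ closure (singOrbit i j h)] :=
  M3E.equivalences hg hb

end Pool.Agent.Results.MP_c12988_an.SubsystemRigidity
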